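import Pool.Agent.HEC.Stmts

/-!
# Squad HEC, row CAP (helper50): capacities of the nested cuts
-/

set_option autoImplicit false

open Finset

namespace Pool.Agent.HEC.H50

lemma cnt_split {α : Type} [Fintype α] (p q r : α → Prop) (h : ∀ a, p a ↔ (q a ∨ r a))
    (hd : ∀ a, q a → ¬ r a) : cnt p = cnt q + cnt r := by
  classical
  unfold cnt
  have h1 : (univ.filter p) = (univ.filter q) ∪ (univ.filter r) := by
    ext a
    simp only [mem_filter, mem_univ, true_and, mem_union]
    exact h a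
  have h2 : Disjoint (univ.filter q : Finset α) (univ.filter r) := by
    rw [Finset.disjoint_left]
    intro a ha hb
    simp only [mem_filter, mem_univ, true_and] at ha hb
    exact hd a ha hb
  have h3 := Finset.card_union_of_disjoint h2
  rw [← h1] at h3
  exact h3

lemma cut_split {V : Type} [Fintype V] (F : SimpleGraph V) (t : V → Bool) (W : Finset V) :
    cut F W = cut (dif F t) W + cut (sam F t) W := by
  unfold cut
  refine cnt_split _ _ _ ?_ ?_
  · intro p
    constructor
    · rintro ⟨h1, h2, h3⟩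
      by_cases ht : t p.1 = t p.2
      · exact Or.inr ⟨h1, h2, h3, ht⟩
      · exact Or.inl ⟨h1, h2, h3, ht⟩
    · rintro (⟨h1, h2, h3, _⟩ | ⟨h1, h2, h3, _⟩)
      · exact ⟨h1, h2, h3⟩
      · exact ⟨h1, h2, h3⟩
  · rintro p ⟨_, _, _, h4⟩ ⟨_, _, _, h5⟩
    exact h4 h5

theorem cap : CapStmt := by
  intro V _ G N W
  have a1 := cut_split G N.t1 W
  have a2 := cut_split (sam G N.t1) N.t2 W
  have a3 := cut_split (sam (sam G N.t1) N.t2) N.t3 W
  have a4 := cut_split (sam (sam (sam G N.t1) N.t2) N.t3) N.t4 W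
  have c1 := N.c1 W
  have c2 := N.c2 W
  have c3 := N.c3 W
  have c4 := N.c4 W
  unfold Nest.S Nest.H Nest.E2 Nest.E3 Nest.E4
  refine ⟨?_, ?_, ?_, ?_, ?_⟩ <;> omega

end Pool.Agent.HEC.H50
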